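import Pool.Agent.Run7.h141.ND1.Iface

/-! Piece GLA of project ND1 (helper141), by helper774. -/

set_option autoImplicit false

namespace Run7.h774.ND1

open Run7.h141.ND1 Set Filter Topology
open scoped ContDiff

/-- an open set of the plane has points farther away from `A` than a given one of its points -/
lemma farther {U : Set ℂ} (hU : IsOpen U) {w : ℂ} (hw : w ∈ U) (A : ℂ) : ∃ u ∈ U, ‖w - A‖ < ‖u - A‖ := by
  obtain ⟨s, hs, hball⟩ := Metric.isOpen_iff.1 hU w hw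
  rcases eq_or_ne w A with h | h
  · refine ⟨w + ((s / 2 : ℝ) : ℂ), hball ?_, ?_⟩
    · rw [Metric.mem_ball, dist_eq_norm, add_sub_cancel_left, Complex.norm_real, Real.norm_eq_abs,
        abs_of_pos (by positivity)]
      linarith
    · rw [h, sub_self, norm_zero, add_sub_cancel_left, Complex.norm_real, Real.norm_eq_abs,
        abs_of_pos (by positivity)]
      positivity
  · have hn : 0 < ‖w - A‖ := norm_pos_iff.2 (sub_ne_zero.2 h)
    set c : ℝ := s / (2 * ‖w - A‖) with hc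
    have hc0 : 0 < c := by positivity
    refine ⟨w + (c : ℂ) * (w - A), hball ?_, ?_⟩
    · rw [Metric.mem_ball, dist_eq_norm, add_sub_cancel_left, norm_mul, Complex.norm_real, Real.norm_eq_abs,
        abs_of_pos hc0, hc]
      have : s / (2 * ‖w - A‖) * ‖w - A‖ = s / 2 := by field_simp
      rw [this]; linarith
    · have h1 : w + (c : ℂ) * (w - A) - A = ((1 + c : ℝ) : ℂ) * (w - A) := by push_cast; ring
      rw [h1, norm_mul, Complex.norm_real, Real.norm_eq_abs, abs_of_pos (by positivity)]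
      nlinarith

theorem t_GLA : S_GLA := by
  intro G R E z₀ p q ε r₀ δ hG hR hopen hz₀ hzE hε hr₀ hδ hδ4 hpq hE hD1 hDI
  obtain ⟨ρ1, hρ1, h1⟩ := hD1
  obtain ⟨ρ2, hρ2, h2⟩ := hDI
  obtain ⟨ε', hε', hball⟩ := Metric.isOpen_iff.1 hR z₀ hz₀
  have hm : 0 < min (min ρ1 ρ2) (min (r₀ / 2) (ε' / 4)) := by positivity
  filter_upwards [Metric.ball_mem_nhds z₀ hm] with z hz
  rw [Metric.mem_ball, dist_eq_norm] at hz
  rcases eq_or_ne z z₀ with rfl | hne
  · simp
  set r := ‖z - z₀‖ with hrdef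
  have hr : 0 < r := norm_pos_iff.2 (sub_ne_zero.2 hne)
  have hrρ1 : r < ρ1 := hz.trans_le ((min_le_left _ _).trans (min_le_left _ _))
  have hrρ2 : r < ρ2 := hz.trans_le ((min_le_left _ _).trans (min_le_right _ _))
  have hrr0 : r < r₀ / 2 := hz.trans_le ((min_le_right _ _).trans (min_le_left _ _))
  have hre : r < ε' / 4 := hz.trans_le ((min_le_right _ _).trans (min_le_right _ _))
  set x := (z - z₀).re with hxdef
  set y := (z - z₀).im with hydef
  have hx : |x| ≤ r := Complex.abs_re_le_norm _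
  have hy : |y| ≤ r := Complex.abs_im_le_norm _
  have hdr : 0 < δ * r := by positivity
  have hdr4 : δ * r ≤ r / 4 := by nlinarith
  obtain ⟨hxa, hxb⟩ := abs_le.1 hx
  obtain ⟨hya, hyb⟩ := abs_le.1 hy
  obtain ⟨x1, hx1, hx1E⟩ := h1 r hr hrρ1 (x - 2 * (δ * r)) (by rw [abs_le]; constructor <;> linarith)
  obtain ⟨x2, hx2, hx2E⟩ := h1 r hr hrρ1 (x + 2 * (δ * r)) (by rw [abs_le]; constructor <;> linarith)
  obtain ⟨y1, hy1, hy1E⟩ := h2 r hr hrρ2 (y - 2 * (δ * r)) (by rw [abs_le]; constructor <;> linarith)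
  obtain ⟨y2, hy2, hy2E⟩ := h2 r hr hrρ2 (y + 2 * (δ * r)) (by rw [abs_le]; constructor <;> linarith)
  rw [mul_one] at hx1E hx2E
  obtain ⟨hx1a, hx1b⟩ := abs_le.1 hx1
  obtain ⟨hx2a, hx2b⟩ := abs_le.1 hx2
  obtain ⟨hy1a, hy1b⟩ := abs_le.1 hy1
  obtain ⟨hy2a, hy2b⟩ := abs_le.1 hy2
  -- the two ways to a point
  have hor : ∀ ξ η : ℝ, z₀ + ξ ∈ E → |ξ| ≤ r₀ → |η| ≤ r₀ →
      ‖G (z₀ + ξ + η * Complex.I) - G z₀ - ξ * p - η * q‖ ≤ ε * (|ξ| + |η|) := by
    intro ξ η hin hξ hη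
    have a1 := (hE z₀ hzE ξ hξ).1
    have a2 := (hE _ hin η hη).2
    have a3 : G (z₀ + ξ + η * Complex.I) - G z₀ - ξ * p - η * q =
        (G (z₀ + ξ + η * Complex.I) - G (z₀ + ξ) - η * q) + (G (z₀ + ξ) - G z₀ - ξ * p) := by ring
    rw [a3]
    refine (norm_add_le _ _).trans ?_
    linarith
  have ver : ∀ ξ η : ℝ, z₀ + η * Complex.I ∈ E → |ξ| ≤ r₀ → |η| ≤ r₀ →
      ‖G (z₀ + ξ + η * Complex.I) - G z₀ - ξ * p - η * q‖ ≤ ε * (|ξ| + |η|) := by
    intro ξ η hin hξ hη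
    have a1 := (hE z₀ hzE η hη).2
    have a2 := (hE _ hin ξ hξ).1
    have a4 : z₀ + ξ + η * Complex.I = z₀ + η * Complex.I + ξ := by ring
    have a3 : G (z₀ + ξ + η * Complex.I) - G z₀ - ξ * p - η * q =
        (G (z₀ + η * Complex.I + ξ) - G (z₀ + η * Complex.I) - ξ * p) + (G (z₀ + η * Complex.I) - G z₀ - η * q) := by
      rw [a4]; ring
    rw [a3]
    refine (norm_add_le _ _).trans ?_
    linarith
  set A : ℂ := G z₀ + x * p + y * q with hA
  have hbd : ∀ ξ η : ℝ, x1 ≤ ξ → ξ ≤ x2 → y1 ≤ η → η ≤ y2 → (ξ = x1 ∨ ξ = x2 ∨ η = y1 ∨ η = y2) →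
      ‖G (z₀ + ξ + η * Complex.I) - A‖ ≤ 11 * ε * r := by
    intro ξ η b1 b2 b3 b4 b5
    have hξ : |ξ| ≤ 2 * r := by rw [abs_le]; constructor <;> linarith
    have hη : |η| ≤ 2 * r := by rw [abs_le]; constructor <;> linarith
    have hmain : ‖G (z₀ + ξ + η * Complex.I) - G z₀ - ξ * p - η * q‖ ≤ ε * (|ξ| + |η|) := by
      rcases b5 with b | b | b | b
      · exact hor ξ η (by rw [b]; exact hx1E) (by linarith) (by linarith)
      · exact hor ξ η (by rw [b]; exact hx2E) (by linarith) (by linarith)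
      · exact ver ξ η (by rw [b]; exact hy1E) (by linarith) (by linarith)
      · exact ver ξ η (by rw [b]; exact hy2E) (by linarith) (by linarith)
    have hξx : |ξ - x| ≤ 3 * (δ * r) := by rw [abs_le]; constructor <;> linarith
    have hηy : |η - y| ≤ 3 * (δ * r) := by rw [abs_le]; constructor <;> linarith
    have e1 : G (z₀ + ξ + η * Complex.I) - A = (G (z₀ + ξ + η * Complex.I) - G z₀ - ξ * p - η * q) +
        (((ξ - x : ℝ) : ℂ) * p + ((η - y : ℝ) : ℂ) * q) := by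
      rw [hA]; push_cast; ring
    rw [e1]
    have e2 : ‖((ξ - x : ℝ) : ℂ) * p + ((η - y : ℝ) : ℂ) * q‖ ≤ 3 * (δ * r) * ‖p‖ + 3 * (δ * r) * ‖q‖ := by
      refine (norm_add_le _ _).trans ?_
      rw [norm_mul, norm_mul, Complex.norm_real, Complex.norm_real, Real.norm_eq_abs, Real.norm_eq_abs]
      exact add_le_add (mul_le_mul_of_nonneg_right hξx (norm_nonneg _)) (mul_le_mul_of_nonneg_right hηy (norm_nonneg _))
    have e3 : 3 * (δ * r) * ‖p‖ + 3 * (δ * r) * ‖q‖ ≤ 3 * r * ε := by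
      have : 3 * (δ * r) * ‖p‖ + 3 * (δ * r) * ‖q‖ = 3 * r * (δ * (‖p‖ + ‖q‖)) := by ring
      rw [this]
      exact mul_le_mul_of_nonneg_left hpq (by positivity)
    have e4 : ε * (|ξ| + |η|) ≤ ε * (4 * r) := mul_le_mul_of_nonneg_left (by linarith) hε.le
    refine (norm_add_le _ _).trans ?_
    nlinarith
  -- the rectangle
  set Q : Set ℂ := Icc (z₀.re + x1) (z₀.re + x2) ×ℂ Icc (z₀.im + y1) (z₀.im + y2) with hQ
  have hQc : IsCompact Q := isCompact_Icc.reProdIm isCompact_Icc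
  have hzQ : z ∈ Q := by
    rw [hQ, Complex.mem_reProdIm]
    have c1 : z.re = z₀.re + x := by rw [hxdef, Complex.sub_re]; ring
    have c2 : z.im = z₀.im + y := by rw [hydef, Complex.sub_im]; ring
    rw [c1, c2]
    refine ⟨⟨?_, ?_⟩, ⟨?_, ?_⟩⟩ <;> linarith
  obtain ⟨w, hwQ, hwmax⟩ := hQc.exists_isMaxOn ⟨z, hzQ⟩ ((hG.sub continuous_const).norm.continuousOn (f := fun ζ => ‖G ζ - A‖))
  have hzw : ‖G z - A‖ ≤ ‖G w - A‖ := hwmax hzQ
  obtain ⟨⟨w1, w2⟩, ⟨w3, w4⟩⟩ := (Complex.mem_reProdIm).1 hwQ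
  have hweq : w = z₀ + ((w.re - z₀.re : ℝ) : ℂ) + ((w.im - z₀.im : ℝ) : ℂ) * Complex.I := by
    apply Complex.ext <;> simp
  have hwle : ‖G w - A‖ ≤ 11 * ε * r := by
    by_cases hbdy : w.re - z₀.re = x1 ∨ w.re - z₀.re = x2 ∨ w.im - z₀.im = y1 ∨ w.im - z₀.im = y2
    · rw [hweq]
      exact hbd _ _ (by linarith) (by linarith) (by linarith) (by linarith) hbdy
    · exfalso
      push Not at hbdy
      obtain ⟨n1, n2, n3, n4⟩ := hbdy
      set V : Set ℂ := Ioo (z₀.re + x1) (z₀.re + x2) ×ℂ Ioo (z₀.im + y1) (z₀.im + y2) with hV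
      have hVo : IsOpen V := isOpen_Ioo.reProdIm isOpen_Ioo
      have hwV : w ∈ V := by
        rw [hV, Complex.mem_reProdIm]
        refine ⟨⟨lt_of_le_of_ne w1 fun h => n1 (by linarith), lt_of_le_of_ne w2 fun h => n2 (by linarith)⟩,
          ⟨lt_of_le_of_ne w3 fun h => n3 (by linarith), lt_of_le_of_ne w4 fun h => n4 (by linarith)⟩⟩
      have hVQ : V ⊆ Q := by
        intro ζ hζ
        obtain ⟨⟨d1, d2⟩, ⟨d3, d4⟩⟩ := (Complex.mem_reProdIm).1 hζ
        exact (Complex.mem_reProdIm).2 ⟨⟨d1.le, d2.le⟩, ⟨d3.le, d4.le⟩⟩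
      have hVR : V ⊆ R := by
        intro ζ hζ
        obtain ⟨⟨d1, d2⟩, ⟨d3, d4⟩⟩ := (Complex.mem_reProdIm).1 hζ
        apply hball
        rw [Metric.mem_ball, dist_eq_norm]
        have f1 : |(ζ - z₀).re| ≤ 2 * r := by
          rw [Complex.sub_re, abs_le]; constructor <;> linarith
        have f2 : |(ζ - z₀).im| ≤ 2 * r := by
          rw [Complex.sub_im, abs_le]; constructor <;> linarith
        have f3 := Complex.norm_le_abs_re_add_abs_im (ζ - z₀)
        linarith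
      obtain ⟨u, ⟨ζ, hζV, rfl⟩, hu⟩ := farther (hopen V hVR hVo) (mem_image_of_mem G hwV) A
      exact absurd (hwmax (hVQ hζV)) (not_le.2 hu)
  have hfin : G z - G z₀ - x * p - y * q = G z - A := by rw [hA]; ring
  rw [hfin]
  have : 11 * ε * r ≤ 20 * ε * r := by nlinarith [mul_pos hε hr]
  linarith

end Run7.h774.ND1
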